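import Pool.Agent.H769Z.Tub.Main

/-! Free-by-cyclic groups whose monodromy has a power that extends to a twist along fixed basis
letters are linear in characteristic zero (this includes Gersten's group). -/

set_option autoImplicit false

namespace Pool.Agent.Results.MP_1f284c_al.TwistLinear

open H769Z.Tub

theorem result (n : ℕ) (φ : Multiplicative ℤ →* MulAut (FreeGroup (Fin n)))
    (m N : ℕ) (hN : 0 < N) (ψ : FreeGroup (Fin m) →* FreeGroup (Fin m))
    (hψ : ∀ i : Fin m, ∃ (k l : Fin m) (p q : ℤ),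
      ψ (FreeGroup.of k) = FreeGroup.of k ∧ ψ (FreeGroup.of l) = FreeGroup.of l ∧
      ψ (FreeGroup.of i) = FreeGroup.of k ^ p * FreeGroup.of i * FreeGroup.of l ^ q)
    (j : FreeGroup (Fin n) →* FreeGroup (Fin m)) (hj : Function.Injective j)
    (g : FreeGroup (Fin m))
    (hφ : ∀ w, j (φ (Multiplicative.ofAdd (N : ℤ)) w) = g * ψ (j w) * g⁻¹) :
    ∃ (d : ℕ) (f : SemidirectProduct (FreeGroup (Fin n)) (Multiplicative ℤ) φ →*
      Matrix.GeneralLinearGroup (Fin d) (RatFunc ℚ)), Function.Injective f := by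
  obtain ⟨V, i1, i2, i3, r, T, hr, hT⟩ := twist_rep ψ hψ
  obtain ⟨M, rfl⟩ : ∃ M, N = M + 1 := ⟨N - 1, by omega⟩
  have e : φ (Multiplicative.ofAdd 1) ^ (M + 1) = φ (Multiplicative.ofAdd ((M + 1 : ℕ) : ℤ)) := by
    rw [← map_pow, ← ofAdd_nsmul]; simp
  obtain ⟨r', T', hr', hT'⟩ := power_rep (φ (Multiplicative.ofAdd 1)) M (r.comp j) (r g * T)
    (hr.comp hj) (fun w => by
      rw [e, MonoidHom.comp_apply, MonoidHom.comp_apply, hφ, map_mul, map_mul, map_inv, ← hT]
      group)
  exact torus_linear φ r' T' hr' hT'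

end Pool.Agent.Results.MP_1f284c_al.TwistLinear
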